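import Pool.Agent.V11214.BR.Main

/-!
# The Hilbert-Smith conjecture for homeomorphisms of bounded rotation

Let `n ≥ 1` and let `X` be a Hausdorff space with a dense connected set `R` of points which have a
neighbourhood with a continuous injective map into `ℝⁿ` (for example a connected manifold, or an
Alexandrov space of dimension `n`). Let a locally compact group `G` act faithfully and continuously
on `X`, so that there is a neighbourhood `V` of the identity such that in suitable coordinates near
each point of `R` every `g ∈ V` turns every difference vector by an angle less than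
`arccos (-1/n)`: the angle between `g y - g z` and `y - z` is less than `arccos (-1/n)` for all `y ≠ z`
close to the point. Then `G` is a Lie group. No element has to be Lipschitz, Hölder or of a Sobolev
class anywhere. For `n = 1` the condition says that the elements of `V` preserve the orientation; for all
`n` it holds if the elements of `V` are locally monotone maps, `⟪g y - g z, y - z⟫ ≥ 0`.

Proof. Let `K` be a small compact group, `k ∈ K` and suppose `k y ≠ y`. The vectors
`h y - h k y`, `h ∈ K`, have mean zero, so that `0` is a convex combination of `n + 1` of them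
(Caratheodory; they form a compact set). Their mutual angles are less than `arccos (-1/n)` because the
elements of `K` map them into each other, and `n + 1` such vectors have no vanishing convex combination.
-/

namespace Pool.Agent.Results.MP_afaf30_gt.BoundedRotation

open Set Filter Topology
open scoped RealInnerProductSpace

/-- In the coordinates `ψ` on `U` the element `g` turns all difference vectors by an angle less than
`arccos (-1/n)`. -/
def TurnsLess (n : ℕ) {X G : Type} [Group G] [MulAction G X] (U : Set X)
    (ψ : X → EuclideanSpace ℝ (Fin n)) (g : G) : Prop :=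
  ∀ y ∈ U, ∀ z ∈ U, y ≠ z → g • y ∈ U → g • z ∈ U →
    -(1 / (n : ℝ)) * (‖ψ (g • y) - ψ (g • z)‖ * ‖ψ y - ψ z‖) < ⟪ψ (g • y) - ψ (g • z), ψ y - ψ z⟫

/-- The Hilbert-Smith conjecture for homeomorphisms of bounded rotation. -/
theorem result :
    ∀ (n : ℕ), 1 ≤ n → ∀ (X : Type) [TopologicalSpace X] [T2Space X] (R : Set X),
      Dense R → IsPreconnected R →
      ∀ (G : Type) [Group G] [TopologicalSpace G] [IsTopologicalGroup G] [LocallyCompactSpace G]
        [MulAction G X] [ContinuousSMul G X] [FaithfulSMul G X],
        (∃ V ∈ 𝓝 (1 : G), ∀ x ∈ R, ∃ (U : Set X) (ψ : X → EuclideanSpace ℝ (Fin n)),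
          U ∈ 𝓝 x ∧ ContinuousOn ψ U ∧ InjOn ψ U ∧ ∀ g ∈ V, TurnsLess n U ψ g) →
        ∃ (m : ℕ) (_ : ChartedSpace (EuclideanSpace ℝ (Fin m)) G),
          LieGroup (modelWithCornersSelf ℝ (EuclideanSpace ℝ (Fin m)))
            ((⊤ : ℕ∞) : WithTop ℕ∞) G := by
  intro n hn X _ _ R hd hc G _ _ _ _ _ _ _ hs
  obtain ⟨V, hV, h⟩ := hs
  exact Pool.Agent.V11214.BR.lie_rot hn hd hc hV h

end Pool.Agent.Results.MP_afaf30_gt.BoundedRotation
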