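import Pool.Agent.V11214.TB.Tower

/-!
# The Hilbert-Smith conjecture for block triangular homeomorphisms

Let `Y 0, ..., Y (r-1)` be metric spaces, each of which is homeomorphic to the real line, or such that
its points with a neighbourhood bi-Lipschitz equivalent to an open subset of Euclidean space form a
dense connected set (for example connected Lipschitz manifolds, Alexandrov spaces). Let a locally
compact group `G` act faithfully and continuously on the product of the `Y i`, such that the elements
near the identity are block triangular, `g (y 0, y 1, ...) = (g 0 (y 0), g 1 (y 0, y 1), ...)`. For the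
blocks which are lines nothing else is assumed; for the other blocks the maps `g i (y 0, ..., y (i-1), ·)`
of `Y i` are Lipschitz at all regular points except countably many. The dependence of `g i` on the
parameters `y 0, ..., y (i-1)` is continuous and otherwise arbitrary. Then `G` is a Lie group.

So all locally compact groups of triangular homeomorphisms of `ℝ ^ m` are Lie groups, without any
regularity; and the group may act on `X × Y` by maps which are nowhere Lipschitz, as the
regularity is only required in the base and along the fibres.

Proof. A profinite group which moves the points of a chart of `Y i` by little and acts by maps of the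
class is trivial (a theorem of Newman for this class, from the local theorem for pro-`p` groups and
the Baire argument of the library). A small subgroup which is trivial on the first blocks acts on the
fibres `Y i`; the set of the parameters for which it acts trivially is open and closed.
-/

namespace Pool.Agent.Results.MP_afaf30_gt.TriangularActions

open Set Metric Filter Topology

/-- A bi-Lipschitz chart with values in Euclidean `n`-space. -/
def BiLip {X : Type} [MetricSpace X] (n : ℕ) (U : Set X) (ψ : X → EuclideanSpace ℝ (Fin n))
    (L : ℝ) : Prop :=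
  IsOpen U ∧ IsOpen (ψ '' U) ∧
    ∀ a ∈ U, ∀ b ∈ U, dist (ψ a) (ψ b) ≤ L * dist a b ∧ dist a b ≤ L * dist (ψ a) (ψ b)

/-- The points with a neighbourhood which is bi-Lipschitz equivalent to an open subset of Euclidean
`n`-space. -/
def Reg (n : ℕ) (X : Type) [MetricSpace X] : Set X :=
  {x | ∃ (U : Set X) (ψ : X → EuclideanSpace ℝ (Fin n)) (L : ℝ), x ∈ U ∧ BiLip n U ψ L}

/-- `f` is Lipschitz at the point `x`. -/
def LipAt {X : Type} [MetricSpace X] (f : X → X) (x : X) : Prop :=
  ∃ N δ : ℝ, 0 < δ ∧ ∀ y, dist y x < δ → dist (f y) (f x) ≤ N * dist y x

/-- The Hilbert-Smith conjecture for block triangular homeomorphisms. -/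
theorem result :
    ∀ (r : ℕ) (Y : Fin r → Type) [∀ i, MetricSpace (Y i)] (n : Fin r → ℕ)
      (G : Type) [Group G] [TopologicalSpace G] [IsTopologicalGroup G] [LocallyCompactSpace G]
      [MulAction G (∀ i, Y i)] [ContinuousSMul G (∀ i, Y i)] [FaithfulSMul G (∀ i, Y i)],
      (∀ᶠ g in 𝓝 (1 : G), ∀ (i : Fin r) (z z' : ∀ i, Y i), (∀ j ≤ i, z j = z' j) →
        (g • z) i = (g • z') i) →
      (∀ i, Nonempty (Y i ≃ₜ ℝ) ∨
        (1 ≤ n i ∧ Dense (Reg (n i) (Y i)) ∧ IsPreconnected (Reg (n i) (Y i)) ∧
          ∀ᶠ g in 𝓝 (1 : G), ∀ z : ∀ i, Y i,
            {y : Y i | y ∈ Reg (n i) (Y i) ∧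
              ¬ LipAt (fun y => (g • Function.update z i y) i) y}.Countable)) →
      ∃ (m : ℕ) (_ : ChartedSpace (EuclideanSpace ℝ (Fin m)) G),
        LieGroup (modelWithCornersSelf ℝ (EuclideanSpace ℝ (Fin m))) ((⊤ : ℕ∞) : WithTop ℕ∞) G := by
  intro r Y _ n G _ _ _ _ _ _ _ hflag hblock
  exact Pool.Agent.V11214.TB.lie_tower hflag hblock

end Pool.Agent.Results.MP_afaf30_gt.TriangularActions
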